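import Pool.Agent.H3.Bell.Arith

set_option autoImplicit false

/-!
# The quaternions act on the right ideals `Y u O` as the automaton acts on words
-/

namespace Pool.Agent.H3.Bell

open Om

theorem length_act (s : St) (u : List Bool) : (act s u).length = u.length := by
  induction u generalizing s with
  | nil => rfl
  | cons i u ih => simp [act, ih]

/-- `X true = X false * zt` -/
def zt : Ord := ⟨1 + om, 0, -2, 1⟩

theorem X_true : X true = X false * zt := by decide

theorem gen_Y (s : St) (u : List Bool) : ∃ t : Ord, gen s * Y u = Y (act s u) * t := by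
  induction u generalizing s with
  | nil =>
    have h := gen_X s false
    have h2 : ∃ z : Ord, X (out s false) = X false * z := by
      cases out s false
      · exact ⟨1, by rw [mul_one]⟩
      · exact ⟨zt, X_true⟩
    obtain ⟨z, hz⟩ := h2
    refine ⟨z * gen (next s false) * sc (sgn s false), ?_⟩
    show gen s * X false = X false * _
    rw [h, hz]
    unfold sc
    rw [Om.C_comm]
    simp only [mul_assoc]
  | cons i u ih =>
    obtain ⟨t, ht⟩ := ih (next s i)
    refine ⟨t * sc (sgn s i), ?_⟩
    show gen s * (X i * Y u) = X (out s i) * Y (act (next s i) u) * _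
    rw [← mul_assoc, gen_X]
    calc sc (sgn s i) * (X (out s i) * gen (next s i)) * Y u
        = sc (sgn s i) * (X (out s i) * (gen (next s i) * Y u)) := by simp only [mul_assoc]
      _ = sc (sgn s i) * (X (out s i) * (Y (act (next s i) u) * t)) := by rw [ht]
      _ = (X (out s i) * (Y (act (next s i) u) * t)) * sc (sgn s i) := by
          unfold sc; rw [Om.C_comm]
      _ = _ := by simp only [mul_assoc]

/-! ### uniqueness -/

theorem nrd_X_ne (i : Bool) : nrd (X i) ≠ 0 := by
  rw [nrd_X]; exact pi0_ne

theorem red0_X (i : Bool) : red0 (X i) = ⟨0, 0, 1, 0⟩ := by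
  cases i <;> decide

theorem red0_Y (u : List Bool) : red0 (Y u) = ⟨0, 0, 1, 0⟩ := by
  induction u with
  | nil => exact red0_X false
  | cons i u ih =>
    show red0 (X i * Y u) = _
    rw [map_mul, red0_X, ih]
    decide

theorem nrd_Y (u : List Bool) : nrd (Y u) = pi0 ^ (u.length + 1) := by
  induction u with
  | nil => simp [Y, nrd_X]
  | cons i u ih =>
    show nrd (X i * Y u) = _
    rw [nrd_mul, nrd_X, ih, List.length_cons]
    ring

theorem nrd_Y_ne (u : List Bool) : nrd (Y u) ≠ 0 := by
  rw [nrd_Y]; exact pow_ne_zero _ pi0_ne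

/-- `conj (X i) * X j = π * zz i j` for `i ≠ j` -/
def zz : Bool → Bool → Ord
  | false, true => zt
  | true, false => ⟨-(1 + om), 0, 2, -1⟩
  | _, _ => 1

theorem conj_X_mul_X (i j : Bool) : conj (X i) * X j = sc pi0 * zz i j := by
  cases i <;> cases j <;> decide

theorem zz_red (i j : Bool) (hij : i ≠ j) (t : Om (ZMod 2) 0) :
    red0 (zz i j) * ⟨0, 0, 1, 0⟩ ≠ (⟨0, 0, 1, 0⟩ : Om (ZMod 2) 0) * t := by
  intro h
  have h1 : (⟨1, 0, 1, 0⟩ : Om (ZMod 2) 0) * (red0 (zz i j) * ⟨0, 0, 1, 0⟩) = 0 := by
    rw [h, ← mul_assoc]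
    have : (⟨1, 0, 1, 0⟩ : Om (ZMod 2) 0) * ⟨0, 0, 1, 0⟩ = 0 := by decide
    rw [this, zero_mul]
  revert h1
  cases i <;> cases j <;> first | exact absurd rfl hij | decide

theorem uniq_aux : ∀ (v v' : List Bool), v.length = v'.length → ∀ (m : OK) (t : Ord), r0 m = 1 →
    Y v' * sc m = Y v * t → v = v'
  | [], [], _, _, _, _, _ => rfl
  | [], _ :: _, h, _, _, _, _ => by simp at h
  | _ :: _, [], h, _, _, _, _ => by simp at h
  | i :: v, j :: v', hl, m, t, hm, h => by
    have hl' : v.length = v'.length := by simpa using hl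
    have h' : X j * Y v' * sc m = X i * Y v * t := h
    by_cases hij : i = j
    · subst hij
      have h1 : Y v' * sc m = Y v * t := by
        apply mul_left_cancel' (nrd_X_ne i)
        rw [← mul_assoc, ← mul_assoc, h']
      rw [uniq_aux v v' hl' m t hm h1]
    · exfalso
      have h1 : sc pi0 * (zz i j * (Y v' * sc m)) = sc pi0 * (Y v * t) := by
        have e1 : conj (X i) * (X j * Y v' * sc m) = conj (X i) * (X i * Y v * t) := by rw [h']
        have e2 : conj (X i) * (X j * Y v' * sc m) = sc pi0 * (zz i j * (Y v' * sc m)) := by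
          rw [← mul_assoc, ← mul_assoc, conj_X_mul_X]
          simp only [mul_assoc]
        have e3 : conj (X i) * (X i * Y v * t) = sc pi0 * (Y v * t) := by
          rw [← mul_assoc, ← mul_assoc, conj_mul_self, nrd_X]
          simp only [mul_assoc, sc]
        rw [← e2, e1, e3]
      have h2 := sc_cancel pi0_ne h1
      have h3 := congrArg red0 h2
      rw [map_mul, map_mul, map_mul, red0_Y, red0_Y] at h3
      have h4 : red0 (sc m) = 1 := by
        have : red0 (sc m) = Om.C 0 (r0 m) := by
          unfold red0 sc Om.map Om.C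
          simp
        rw [this, hm]; rfl
      rw [h4, mul_one] at h3
      exact zz_red i j hij _ h3

/-- uniqueness of the image word -/
theorem uniq {x : Ord} (hx : r0 (nrd x) = 1) {u v v' : List Bool} (hv : v.length = u.length)
    (hv' : v'.length = u.length) {t t' : Ord} (h : x * Y u = Y v * t) (h' : x * Y u = Y v' * t') :
    v = v' := by
  have hn : nrd t' = nrd x := by
    have h1 := congrArg nrd h'
    rw [nrd_mul, nrd_mul, nrd_Y, nrd_Y, hv'] at h1
    apply mul_left_cancel₀ (pow_ne_zero (u.length + 1) pi0_ne)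
    rw [← h1]; ring
  refine uniq_aux v v' (hv.trans hv'.symm) (nrd x) (t * conj t') hx ?_
  rw [← mul_assoc, ← h, h', mul_assoc, mul_conj, hn]
  rfl

end Pool.Agent.H3.Bell
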