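import Pool.Agent.H3.Bell.Defs

set_option autoImplicit false

/-!
# Arithmetic of `ℤ[ω]` and reductions modulo the two primes above 2
-/

namespace Pool.Agent.H3.Bell

open Om

/-- reduction modulo `π` -/
def r0 : OK →+* ZMod 2 where
  toFun z := (z.re : ZMod 2)
  map_one' := by simp [QuadraticAlgebra.re_one]
  map_zero' := by simp
  map_add' x y := by simp
  map_mul' x y := by
    have h : (4 : ZMod 2) = 0 := by decide
    simp [h]

/-- reduction modulo `π'` -/
def r1 : OK →+* ZMod 2 where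
  toFun z := ((z.re + z.im : ℤ) : ZMod 2)
  map_one' := by simp [QuadraticAlgebra.re_one, QuadraticAlgebra.im_one]
  map_zero' := by simp
  map_add' x y := by simp; ring
  map_mul' x y := by
    have h : (4 : ZMod 2) = 0 := by decide
    simp [h]
    ring

theorem r0_om : r0 om = 0 := by decide
theorem r1_om : r1 om = 1 := by decide

theorem r0_dvd {z : OK} (h : r0 z = 0) : ∃ y, z = pi0 * y := by
  have h1 : ((z.re : ℤ) : ZMod 2) = 0 := h
  rw [ZMod.intCast_zmod_eq_zero_iff_dvd] at h1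
  obtain ⟨k, hk⟩ := h1
  refine ⟨⟨3 * k - 2 * z.im, z.im - k⟩, ?_⟩
  push_cast at hk
  ext
  · simp [pi0]; linarith
  · simp [pi0]; ring

theorem r1_dvd {z : OK} (h : r1 z = 0) : ∃ y, z = pi1 * y := by
  have h1 : ((z.re + z.im : ℤ) : ZMod 2) = 0 := h
  rw [ZMod.intCast_zmod_eq_zero_iff_dvd] at h1
  obtain ⟨k, hk⟩ := h1
  refine ⟨⟨z.re + 2 * z.im, k + z.im⟩, ?_⟩
  push_cast at hk
  ext
  · simp [pi1]; linarith
  · simp [pi1]; linarith

/-- reduction of quaternions modulo `π` -/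
def red0 : Ord →+* Om (ZMod 2) 0 := Om.map r0 r0_om

/-- reduction of quaternions modulo `π'` -/
def red1 : Ord →+* Om (ZMod 2) 1 := Om.map r1 r1_om

theorem red0_dvd {x : Ord} (h : red0 x = 0) : ∃ y, x = sc pi0 * y := by
  obtain ⟨a, ha⟩ := r0_dvd (z := x.a) (congrArg Om.a h)
  obtain ⟨b, hb⟩ := r0_dvd (z := x.b) (congrArg Om.b h)
  obtain ⟨c, hc⟩ := r0_dvd (z := x.c) (congrArg Om.c h)
  obtain ⟨d, hd⟩ := r0_dvd (z := x.d) (congrArg Om.d h)
  refine ⟨⟨a, b, c, d⟩, ?_⟩
  apply Om.ext <;> simp [sc, ha, hb, hc, hd]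

theorem red1_dvd {x : Ord} (h : red1 x = 0) : ∃ y, x = sc pi1 * y := by
  obtain ⟨a, ha⟩ := r1_dvd (z := x.a) (congrArg Om.a h)
  obtain ⟨b, hb⟩ := r1_dvd (z := x.b) (congrArg Om.b h)
  obtain ⟨c, hc⟩ := r1_dvd (z := x.c) (congrArg Om.c h)
  obtain ⟨d, hd⟩ := r1_dvd (z := x.d) (congrArg Om.d h)
  refine ⟨⟨a, b, c, d⟩, ?_⟩
  apply Om.ext <;> simp [sc, ha, hb, hc, hd]

theorem red0_pi0 : red0 (sc pi0) = 0 := by decide
theorem red1_pi1 : red1 (sc pi1) = 0 := by decide

theorem red0_of_dvd (y : Ord) : red0 (1 + sc pi0 * y) = 1 := by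
  rw [map_add, map_mul, red0_pi0, zero_mul, add_zero, map_one]

theorem exists_of_red0 {x : Ord} (h : red0 x = 1) : ∃ y, x = 1 + sc pi0 * y := by
  have h1 : red0 (x - 1) = 0 := by rw [map_sub, h, map_one, sub_self]
  obtain ⟨y, hy⟩ := red0_dvd h1
  exact ⟨y, by rw [← hy]; abel⟩

theorem pi_mul : pi0 * pi1 = 2 := by decide

/-! ### Norm and domain property -/

theorem sq_eq_seventeen {x y : ℤ} (h : x ^ 2 = 17 * y ^ 2) : y = 0 := by
  by_contra hy
  have h17 : Irrational (Real.sqrt (17 : ℕ)) :=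
    Nat.Prime.irrational_sqrt (by norm_num)
  apply h17
  refine ⟨(|x| : ℤ) / (|y| : ℤ), ?_⟩
  have hy' : (0 : ℝ) < |(y : ℝ)| := abs_pos.2 (by exact_mod_cast hy)
  have h1 : (x : ℝ) ^ 2 = 17 * (y : ℝ) ^ 2 := by exact_mod_cast h
  have h2 : Real.sqrt (17 : ℕ) * |(y : ℝ)| = |(x : ℝ)| := by
    rw [← Real.sqrt_sq_eq_abs (y : ℝ), ← Real.sqrt_sq_eq_abs (x : ℝ), ← Real.sqrt_mul (by positivity),
      h1]
    norm_num
  push_cast at h2 ⊢
  rw [div_eq_iff hy'.ne', h2]

/-- the norm form -/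
def N (z : OK) : ℤ := z.re ^ 2 + z.re * z.im - 4 * z.im ^ 2

theorem N_mul (x y : OK) : N (x * y) = N x * N y := by
  simp [N]; ring

theorem N_one : N 1 = 1 := by decide

theorem N_pow (x : OK) (n : ℕ) : N (x ^ n) = N x ^ n := by
  induction n with
  | zero => simp [N_one]
  | succ n ih => rw [pow_succ, pow_succ, N_mul, ih]

theorem N_eq_zero {z : OK} (h : N z = 0) : z = 0 := by
  have h1 : (2 * z.re + z.im) ^ 2 = 17 * z.im ^ 2 := by
    unfold N at h; linear_combination 4 * h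
  have h2 := sq_eq_seventeen h1
  rw [h2] at h1
  have h3 : z.re = 0 := by
    have : (2 * z.re) ^ 2 = 0 := by linarith
    have := pow_eq_zero_iff (two_ne_zero) |>.1 this
    linarith
  ext
  · simpa using h3
  · simpa using h2

instance : NoZeroDivisors OK where
  eq_zero_or_eq_zero_of_mul_eq_zero := by
    intro x y h
    have h1 : N x * N y = 0 := by rw [← N_mul, h]; decide
    rcases mul_eq_zero.1 h1 with h1 | h1
    · exact Or.inl (N_eq_zero h1)
    · exact Or.inr (N_eq_zero h1)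

instance : IsDomain OK := NoZeroDivisors.to_isDomain OK

theorem pi0_ne : pi0 ≠ 0 := by decide
theorem pi1_ne : pi1 ≠ 0 := by decide

theorem N_unit (u : OKˣ) : N u = 1 ∨ N u = -1 := by
  have h : N u * N (u⁻¹ : OKˣ) = 1 := by
    rw [← N_mul, Units.mul_inv, N_one]
  exact Int.isUnit_iff.1 (IsUnit.of_mul_eq_one _ h)

theorem r0_unit (u : OKˣ) : r0 u = 1 := by
  have h : r0 u * r0 (u⁻¹ : OKˣ) = 1 := by
    rw [← map_mul, Units.mul_inv, map_one]
  have : ∀ a b : ZMod 2, a * b = 1 → a = 1 := by decide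
  exact this _ _ h

/-! ### cancellation -/

theorem sc_cancel {t : OK} (ht : t ≠ 0) {x y : Ord} (h : sc t * x = sc t * y) : x = y := by
  have ha := congrArg Om.a h
  have hb := congrArg Om.b h
  have hc := congrArg Om.c h
  have hd := congrArg Om.d h
  simp only [sc, Om.a_mul, Om.b_mul, Om.c_mul, Om.d_mul, Om.a_C, Om.b_C, Om.c_C, Om.d_C] at ha hb hc hd
  apply Om.ext
  · apply mul_left_cancel₀ ht; linear_combination ha
  · apply mul_left_cancel₀ ht; linear_combination hb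
  · apply mul_left_cancel₀ ht; linear_combination hc
  · apply mul_left_cancel₀ ht; linear_combination hd

theorem mul_left_cancel' {z x y : Ord} (hz : nrd z ≠ 0) (h : z * x = z * y) : x = y := by
  apply sc_cancel hz
  have h1 : sc (nrd z) = conj z * z := (conj_mul_self z).symm
  rw [h1, mul_assoc, mul_assoc, h]

end Pool.Agent.H3.Bell
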