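import Pool.Agent.H3.Bell.Om

set_option autoImplicit false

/-!
# The Bellaterra automaton and a maximal order over `ℤ[(1+√17)/2]`
-/

namespace Pool.Agent.H3.Bell

/-! ### The ring of integers of `ℚ(√17)` -/

/-- `ℤ[ω]`, `ω² = 4 + ω`, `ω = (1+√17)/2`; `⟨x, y⟩` is `x + y ω`. -/
abbrev OK : Type := QuadraticAlgebra ℤ 4 1

/-- `ω` -/
def om : OK := ⟨0, 1⟩

/-- `π = 2 + ω`, of norm 2 -/
def pi0 : OK := ⟨2, 1⟩

/-- `π' = 3 - ω`, of norm 2 -/
def pi1 : OK := ⟨3, -1⟩

/-! ### The order -/

/-- the order `O`, with basis `1, ρ, e, ρe` over `ℤ[ω]` -/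
abbrev Ord : Type := Om OK om

/-- scalars in `O` -/
def sc (t : OK) : Ord := Om.C om t

/-! ### The automaton -/

/-- the three states of the Bellaterra automaton -/
inductive St
  | a
  | b
  | c
deriving DecidableEq

/-- output function: `a` and `b` fix both letters, `c` exchanges them -/
def out : St → Bool → Bool
  | St.a, i => i
  | St.b, i => i
  | St.c, i => !i

/-- transition function: `a = (c, b)`, `b = (b, c)`, `c = (a, a)σ` -/
def next : St → Bool → St
  | St.a, false => St.c
  | St.a, true => St.b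
  | St.b, false => St.b
  | St.b, true => St.c
  | St.c, _ => St.a

/-- action of a state on finite words -/
def act : St → List Bool → List Bool
  | _, [] => []
  | s, i :: u => out s i :: act (next s i) u

theorem act_act (s : St) (u : List Bool) : act s (act s u) = u := by
  induction u generalizing s with
  | nil => rfl
  | cons i u ih =>
    cases s <;> cases i <;> simp [act, out, next, ih]

/-- the permutation of the set of finite words given by a state -/
def perm (s : St) : Equiv.Perm (List Bool) := ⟨act s, act s, act_act s, act_act s⟩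

/-- the group generated by the automaton -/
def G : Subgroup (Equiv.Perm (List Bool)) := Subgroup.closure (Set.range perm)

/-! ### Quaternions -/

/-- the quaternions attached to the states, of reduced norm `π'` -/
def gen : St → Ord
  | St.a => ⟨-1, 2, 0, 2 - om⟩
  | St.b => ⟨-1, 0, om - 2, 0⟩
  | St.c => ⟨1, 0, 2 - om, om - 2⟩

/-- the quaternions attached to the letters, of reduced norm `π` -/
def X : Bool → Ord
  | false => ⟨0, 0, 1, 0⟩
  | true => ⟨om + 2, om + 2, -(om + 1), 0⟩

/-- `Y u = X u₁ ⋯ X uₙ X 0` -/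
def Y : List Bool → Ord
  | [] => X false
  | i :: u => X i * Y u

theorem one_mem_aux : (∃ y : Ord, (1 : Ord) = 1 + sc pi0 * y) ∧
    ∃ (n : ℕ) (u : OKˣ), Om.nrd (1 : Ord) = u * pi1 ^ n := by
  refine ⟨⟨0, by simp⟩, 0, 1, ?_⟩
  simp [Om.nrd_one]

/-- The multiplicative monoid of all `x ∈ O` with `x ≡ 1 mod πO` and reduced norm a unit times a
power of `π'`. -/
def S : Submonoid Ord where
  carrier := {x | (∃ y : Ord, x = 1 + sc pi0 * y) ∧ ∃ (n : ℕ) (u : OKˣ), Om.nrd x = u * pi1 ^ n}
  one_mem' := one_mem_aux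
  mul_mem' := by
    rintro x x' ⟨⟨y, hy⟩, n, u, hn⟩ ⟨⟨y', hy'⟩, n', u', hn'⟩
    refine ⟨⟨y + y' + sc pi0 * (y * y'), ?_⟩, n + n', u * u', ?_⟩
    · rw [hy, hy']
      have h : y * sc pi0 = sc pi0 * y := (Om.C_comm pi0 y).symm
      calc (1 + sc pi0 * y) * (1 + sc pi0 * y')
          = 1 + sc pi0 * y + sc pi0 * y' + sc pi0 * (y * sc pi0) * y' := by noncomm_ring
        _ = 1 + sc pi0 * y + sc pi0 * y' + sc pi0 * (sc pi0 * y) * y' := by rw [h]
        _ = _ := by noncomm_ring
    · rw [Om.nrd_mul, hn, hn']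
      push_cast
      ring

/-! ### Checks -/

theorem gen_sq (s : St) : gen s * gen s = sc (-pi1) := by
  cases s <;> decide

theorem nrd_gen (s : St) : Om.nrd (gen s) = pi1 := by
  cases s <;> decide

theorem nrd_X (i : Bool) : Om.nrd (X i) = pi0 := by
  cases i <;> decide

/-- the sign in the commutation relation -/
def sgn : St → Bool → OK
  | St.a, false => 1
  | St.a, true => -1
  | St.b, false => 1
  | St.b, true => -1
  | St.c, _ => 1

theorem gen_X (s : St) (i : Bool) : gen s * X i = sc (sgn s i) * (X (out s i) * gen (next s i)) := by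
  cases s <;> cases i <;> decide

end Pool.Agent.H3.Bell
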