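import Pool.Agent.H3.Bell.Units

set_option autoImplicit false

/-!
# Every element of `S` is a scalar times a product of the three generators; the homomorphism `θ`
-/

namespace Pool.Agent.H3.Bell

open Om

/-- product of generators -/
def gprod : List St → Ord
  | [] => 1
  | s :: l => gen s * gprod l

/-- product of permutations -/
def pprod : List St → Equiv.Perm (List Bool)
  | [] => 1
  | s :: l => perm s * pprod l

theorem pprod_mem (l : List St) : pprod l ∈ G := by
  induction l with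
  | nil => exact G.one_mem
  | cons s l ih => exact G.mul_mem (Subgroup.subset_closure ⟨s, rfl⟩) ih

theorem red0_gen (s : St) : red0 (gen s) = 1 := by cases s <;> decide

theorem red1_exists : ∀ a b c d : ZMod 2, nrd (⟨a, b, c, d⟩ : Om (ZMod 2) 1) = 0 →
    red1 (gen St.a) * ⟨a, b, c, d⟩ = 0 ∨ red1 (gen St.b) * ⟨a, b, c, d⟩ = 0 ∨
      red1 (gen St.c) * ⟨a, b, c, d⟩ = 0 := by decide

theorem exists_gen_factor {x : Ord} (h : r1 (nrd x) = 0) : ∃ (s : St) (y : Ord), x = gen s * y := by
  have h1 : nrd (red1 x) = 0 := by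
    unfold red1
    rw [nrd_map]; exact h
  have h2 : ∃ s : St, red1 (gen s) * red1 x = 0 := by
    rcases red1_exists _ _ _ _ h1 with h | h | h
    · exact ⟨_, h⟩
    · exact ⟨_, h⟩
    · exact ⟨_, h⟩
  obtain ⟨s, hs⟩ := h2
  rw [← map_mul] at hs
  obtain ⟨y, hy⟩ := red1_dvd hs
  refine ⟨s, -y, ?_⟩
  apply sc_cancel (t := -pi1) (neg_ne_zero.2 pi1_ne)
  calc sc (-pi1) * x = gen s * (gen s * x) := by rw [← gen_sq s, mul_assoc]
    _ = gen s * (sc pi1 * y) := by rw [hy]
    _ = sc pi1 * (gen s * y) := by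
        unfold sc
        rw [← mul_assoc, ← C_comm, mul_assoc]
    _ = sc (-pi1) * (gen s * -y) := by
        unfold sc
        rw [C_neg, mul_neg, neg_mul_neg]

theorem gen_induct (n : ℕ) : ∀ (x : Ord) (u : OKˣ), nrd x = u * pi1 ^ n → red0 x = 1 →
    ∃ (c : OK) (l : List St), x = sc c * gprod l ∧ c ≠ 0 ∧ l.length ≤ n := by
  induction n with
  | zero =>
    intro x u h h0
    rw [pow_zero, mul_one] at h
    obtain ⟨v, hv⟩ := scalar_of_unit h h0
    exact ⟨v, [], by rw [hv]; exact (mul_one _).symm, v.ne_zero, le_rfl⟩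
  | succ n ih =>
    intro x u h h0
    have h1 : r1 (nrd x) = 0 := by
      rw [h, map_mul, map_pow]
      have : r1 pi1 = 0 := by decide
      rw [this, zero_pow (Nat.succ_ne_zero n), mul_zero]
    obtain ⟨s, y, hy⟩ := exists_gen_factor h1
    have h2 : nrd y = u * pi1 ^ n := by
      rw [hy, nrd_mul, nrd_gen] at h
      apply mul_left_cancel₀ pi1_ne
      rw [h]; ring
    have h3 : red0 y = 1 := by
      rw [hy, map_mul, red0_gen, one_mul] at h0
      exact h0
    obtain ⟨c, l, hl, hc, hn⟩ := ih y u h2 h3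
    refine ⟨c, s :: l, ?_, hc, by simpa using hn⟩
    show x = sc c * (gen s * gprod l)
    rw [hy, hl]
    unfold sc
    rw [← mul_assoc, ← C_comm, mul_assoc]

/-- `x` maps the right ideal of the word `u` to that of the word `v` (away from `π'`) -/
def Maps (x : Ord) (u v : List Bool) : Prop := v.length = u.length ∧ ∃ t : Ord, x * Y u = Y v * t

theorem Maps.mul {x y : Ord} {u v w : List Bool} (h1 : Maps y u v) (h2 : Maps x v w) :
    Maps (x * y) u w := by
  obtain ⟨hl, t, ht⟩ := h1
  obtain ⟨hl', t', ht'⟩ := h2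
  exact ⟨hl'.trans hl, t' * t, by rw [mul_assoc, ht, ← mul_assoc, ht', mul_assoc]⟩

theorem maps_sc (c : OK) (u : List Bool) : Maps (sc c) u u :=
  ⟨rfl, sc c, by unfold sc; rw [C_comm]⟩

theorem maps_gprod (l : List St) (u : List Bool) : Maps (gprod l) u (pprod l u) := by
  induction l with
  | nil => exact ⟨rfl, 1, by show 1 * Y u = Y u * 1; rw [one_mul, mul_one]⟩
  | cons s l ih =>
    obtain ⟨t, ht⟩ := gen_Y s (pprod l u)
    exact Maps.mul ih ⟨length_act s _, t, ht⟩

theorem red0_of_mem {x : Ord} (hx : x ∈ S) : red0 x = 1 := by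
  obtain ⟨⟨y, hy⟩, _⟩ := hx
  rw [hy]; exact red0_of_dvd y

theorem r0_nrd_of_mem {x : Ord} (hx : x ∈ S) : r0 (nrd x) = 1 := by
  obtain ⟨_, n, u, hn⟩ := hx
  rw [hn, map_mul, map_pow, r0_unit]
  have : r0 pi1 = 1 := by decide
  rw [this, one_pow, mul_one]

theorem exists_perm {x : Ord} (hx : x ∈ S) : ∃ g : G, ∀ u, Maps x u ((g : Equiv.Perm _) u) := by
  obtain ⟨n, u, hn⟩ := hx.2
  obtain ⟨c, l, hl, hc, _⟩ := gen_induct n x u hn (red0_of_mem hx)
  refine ⟨⟨pprod l, pprod_mem l⟩, fun u => ?_⟩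
  rw [hl]
  exact Maps.mul (maps_gprod l u) (maps_sc c _)

theorem maps_unique {x : Ord} (hx : x ∈ S) {u v v' : List Bool} (h : Maps x u v)
    (h' : Maps x u v') : v = v' := by
  obtain ⟨hl, t, ht⟩ := h
  obtain ⟨hl', t', ht'⟩ := h'
  exact uniq (r0_nrd_of_mem hx) hl hl' ht ht'

/-- the permutation of words attached to an element of `S` -/
noncomputable def th (x : S) : G := (exists_perm x.2).choose

theorem th_spec (x : S) (u : List Bool) : Maps (x : Ord) u ((th x : Equiv.Perm _) u) :=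
  (exists_perm x.2).choose_spec u

theorem th_iff (x : S) (u v : List Bool) : (th x : Equiv.Perm _) u = v ↔ Maps (x : Ord) u v := by
  constructor
  · rintro rfl
    exact th_spec x u
  · intro h
    exact maps_unique x.2 (th_spec x u) h

theorem th_eq_of {x : S} {g : G} (h : ∀ u, Maps (x : Ord) u ((g : Equiv.Perm _) u)) : th x = g := by
  apply Subtype.ext
  apply Equiv.ext
  intro u
  exact maps_unique x.2 (th_spec x u) (h u)

/-- the homomorphism `S → G` -/
noncomputable def theta : S →* G where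
  toFun := th
  map_one' := by
    apply th_eq_of
    intro u
    exact ⟨rfl, 1, by simp⟩
  map_mul' x y := by
    apply th_eq_of
    intro u
    exact Maps.mul (th_spec y u) (th_spec x _)

theorem gen_mem (s : St) : gen s ∈ S := by
  refine ⟨exists_of_red0 (red0_gen s), 1, 1, ?_⟩
  rw [nrd_gen]; simp

theorem theta_gen (s : St) : (theta ⟨gen s, gen_mem s⟩ : Equiv.Perm _) = perm s := by
  have : theta ⟨gen s, gen_mem s⟩ = ⟨perm s, Subgroup.subset_closure ⟨s, rfl⟩⟩ := by
    apply th_eq_of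
    intro u
    obtain ⟨t, ht⟩ := gen_Y s u
    exact ⟨length_act s u, t, ht⟩
  rw [this]

theorem perm_mul_self (s : St) : perm s * perm s = 1 := by
  apply Equiv.ext
  intro u
  exact act_act s u

theorem conj_mem {x : Ord} (hx : x ∈ S) : conj x ∈ S := by
  obtain ⟨⟨y, hy⟩, n, u, hn⟩ := hx
  refine ⟨⟨conj y, ?_⟩, n, u, ?_⟩
  · rw [hy]
    apply Om.ext <;> simp [sc] <;> ring
  · rw [nrd_conj]; exact hn

theorem theta_sc {x : S} {c : OK} (h : (x : Ord) = sc c) : theta x = 1 := by
  apply th_eq_of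
  intro u
  rw [h]
  exact maps_sc _ u

theorem theta_conj (x : S) : theta ⟨conj (x : Ord), conj_mem x.2⟩ = (theta x)⁻¹ := by
  have h1 : theta ⟨conj (x : Ord), conj_mem x.2⟩ * theta x = 1 := by
    rw [← map_mul]
    refine theta_sc (c := nrd (x : Ord)) ?_
    rw [Submonoid.coe_mul]
    exact conj_mul_self _
  exact eq_inv_of_mul_eq_one_left h1

theorem theta_surjective : Function.Surjective theta := by
  intro g
  obtain ⟨g, hg⟩ := g
  have key : ∀ g ∈ G, ∃ x : S, (theta x : Equiv.Perm _) = g := by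
    intro g hg
    refine Subgroup.closure_induction (p := fun g _ => ∃ x : S, (theta x : Equiv.Perm _) = g)
      ?_ ?_ ?_ ?_ hg
    · rintro _ ⟨s, rfl⟩
      exact ⟨_, theta_gen s⟩
    · exact ⟨1, by rw [map_one]; rfl⟩
    · rintro a b _ _ ⟨x, hx⟩ ⟨y, hy⟩
      exact ⟨x * y, by rw [map_mul, Subgroup.coe_mul, hx, hy]⟩
    · rintro a _ ⟨x, hx⟩
      exact ⟨_, by rw [theta_conj, Subgroup.coe_inv, hx]⟩
  obtain ⟨x, hx⟩ := key g hg
  exact ⟨x, Subtype.ext hx⟩

/-- elements of norm a unit times `π'` act as the states of the automaton -/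
theorem theta_of_norm_pi1 (x : S) (h : ∃ u : OKˣ, nrd (x : Ord) = u * pi1) :
    ∃ s : St, (theta x : Equiv.Perm _) = perm s := by
  obtain ⟨u, hu⟩ := h
  obtain ⟨c, l, hl, hc, hn⟩ := gen_induct 1 x u (by rw [hu, pow_one]) (red0_of_mem x.2)
  match l, hn, hl with
  | [], _, hl =>
    exfalso
    have h1 : nrd (x : Ord) = c ^ 2 := by
      rw [hl]
      show nrd (sc c * 1) = c ^ 2
      rw [mul_one]; exact nrd_C c
    rw [hu] at h1
    have h2 := congrArg N h1
    rw [N_mul, N_pow] at h2
    have h3 : N pi1 = 2 := by decide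
    rw [h3] at h2
    rcases N_unit u with h4 | h4
    · rw [h4] at h2
      have : N c * N c = 2 := by linarith
      have hc1 : N c ≤ 1 := by nlinarith
      have hc2 : -1 ≤ N c := by nlinarith
      interval_cases (N c) <;> omega
    · rw [h4] at h2
      nlinarith [sq_nonneg (N c)]
  | [s], _, hl =>
    refine ⟨s, ?_⟩
    have h1 : theta x = ⟨perm s, Subgroup.subset_closure ⟨s, rfl⟩⟩ := by
      apply th_eq_of
      intro u
      rw [hl]
      have := Maps.mul (maps_gprod [s] u) (maps_sc c _)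
      simpa [pprod] using this
    rw [h1]
  | _ :: _ :: _, hn, _ => simp at hn

end Pool.Agent.H3.Bell
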