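import Pool.Agent.H3.Bell.Gen

set_option autoImplicit false

/-!
# Elements of `S` acting trivially on all words are scalars
-/

namespace Pool.Agent.H3.Bell

open Om

/-- `e = X false` -/
abbrev ee : Ord := X false

theorem ee_conj : conj ee * ee = sc pi0 := by decide
theorem ee_comm : conj ee * ee = ee * conj ee := by decide
theorem red_ee : red0 ee = ⟨0, 0, 1, 0⟩ := by decide
theorem red_cee : red0 (conj ee) = ⟨1, 0, 1, 0⟩ := by decide

theorem idem_pow {M : Type} [Monoid M] {a : M} (h : a * a = a) (n : ℕ) : a ^ (n + 1) = a := by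
  induction n with
  | zero => simp
  | succ n ih => rw [pow_succ, ih, h]

theorem nrd_ee_ne : nrd ee ≠ 0 := by
  rw [nrd_X]; exact pi0_ne

theorem nrd_conj_ee_ne : nrd (conj ee) ≠ 0 := by
  rw [nrd_conj]; exact nrd_ee_ne

theorem div_pow' (m : ℕ) : ∀ (k : ℕ) (z y : Ord), conj ee ^ (k + 1) * z = ee ^ m * y →
    ∃ z', z = ee ^ m * z' := by
  induction m with
  | zero => intro k z y _; exact ⟨z, by rw [pow_zero, one_mul]⟩
  | succ m ih =>
    intro k z y h
    have hE : (⟨0, 0, 1, 0⟩ : Om (ZMod 2) 0) * ⟨0, 0, 1, 0⟩ = ⟨0, 0, 1, 0⟩ := by decide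
    have hF : (⟨1, 0, 1, 0⟩ : Om (ZMod 2) 0) * ⟨1, 0, 1, 0⟩ = ⟨1, 0, 1, 0⟩ := by decide
    have hEF : (⟨0, 0, 1, 0⟩ : Om (ZMod 2) 0) * ⟨1, 0, 1, 0⟩ = 0 := by decide
    have h1 := congrArg red0 h
    rw [map_mul, map_mul, map_pow, map_pow, red_ee, red_cee, idem_pow hE, idem_pow hF] at h1
    have h2 : (⟨0, 0, 1, 0⟩ : Om (ZMod 2) 0) * red0 y = 0 := by
      have h3 := congrArg (fun t => (⟨0, 0, 1, 0⟩ : Om (ZMod 2) 0) * t) h1
      simp only [← mul_assoc] at h3
      rw [hEF, hE, zero_mul] at h3
      exact h3.symm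
    rw [h2] at h1
    have h4 : red0 (conj ee * z) = 0 := by rw [map_mul, red_cee]; exact h1
    obtain ⟨z0, hz0⟩ := red0_dvd h4
    have h5 : z = ee * z0 := by
      apply mul_left_cancel' nrd_conj_ee_ne
      rw [hz0, ← mul_assoc, ee_conj]
    have hc : Commute (conj ee) ee := ee_comm
    have h6 : conj ee ^ (k + 1) * z0 = ee ^ m * y := by
      apply mul_left_cancel' nrd_ee_ne
      rw [← mul_assoc, ← (hc.pow_left (k + 1)).eq, mul_assoc, ← h5, h, pow_succ', mul_assoc]
    obtain ⟨z', hz'⟩ := ih k z0 y h6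
    exact ⟨z', by rw [h5, hz', pow_succ', mul_assoc]⟩

theorem nrd_pow (x : Ord) (n : ℕ) : nrd (x ^ n) = nrd x ^ n := by
  induction n with
  | zero => simp [nrd_one]
  | succ n ih => rw [pow_succ, pow_succ, nrd_mul, ih]

theorem eq_zero_of_div {z : Ord} (h : ∀ m : ℕ, ∃ z', z = ee ^ m * z') : z = 0 := by
  apply nrd_eq_zero
  apply N_eq_zero
  by_contra hne
  set k : ℕ := (N (nrd z)).natAbs with hk
  have hkpos : 0 < k := Int.natAbs_pos.2 hne
  obtain ⟨z', hz'⟩ := h k
  have h1 : N (nrd z) = 2 ^ k * N (nrd z') := by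
    have hX : nrd ee = pi0 := nrd_X false
    have h2 : N pi0 = 2 := by decide
    conv_lhs => rw [hz']
    rw [nrd_mul, nrd_pow, hX, N_mul, N_pow, h2]
  have h3 : k = 2 ^ k * (N (nrd z')).natAbs := by
    have := congrArg Int.natAbs h1
    rw [Int.natAbs_mul, Int.natAbs_pow] at this
    exact this
  have h4 : 1 ≤ (N (nrd z')).natAbs := by
    rcases Nat.eq_zero_or_pos (N (nrd z')).natAbs with h5 | h5
    · rw [h5, mul_zero] at h3; omega
    · exact h5
  have h6 : 2 ^ k ≤ k := by
    calc 2 ^ k ≤ 2 ^ k * (N (nrd z')).natAbs := Nat.le_mul_of_pos_right _ h4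
      _ = k := h3.symm
  exact absurd h6 (not_le.2 (Nat.lt_two_pow_self))

theorem comm_identity (x : Ord) : (x * ee - ee * x) * ee = conj ee * (x * ee - ee * x) := by
  apply Om.ext <;> simp [X] <;> ring

theorem comm_pow (x : Ord) (k : ℕ) :
    (x * ee - ee * x) * ee ^ k = conj ee ^ k * (x * ee - ee * x) := by
  induction k with
  | zero => simp
  | succ k ih => rw [pow_succ, ← mul_assoc, ih, mul_assoc, comm_identity, pow_succ, mul_assoc]

theorem commute_of_fix {x : Ord} (h : ∀ m : ℕ, ∃ t, x * ee ^ (m + 1) = ee ^ (m + 1) * t) :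
    x * ee = ee * x := by
  have : x * ee - ee * x = 0 := by
    apply eq_zero_of_div
    intro m
    obtain ⟨t, ht⟩ := h m
    have h1 : conj ee ^ (m + 1) * (x * ee - ee * x) = ee ^ (m + 1) * (t * ee - ee * t) := by
      rw [← comm_pow, sub_mul, mul_sub]
      have e1 : x * ee * ee ^ (m + 1) = ee ^ (m + 1) * (t * ee) := by
        rw [mul_assoc, ← pow_succ', pow_succ, ← mul_assoc, ht, mul_assoc]
      have e2 : ee * x * ee ^ (m + 1) = ee ^ (m + 1) * (ee * t) := by
        rw [mul_assoc, ht, ← mul_assoc, ← mul_assoc, ← pow_succ', ← pow_succ]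
      rw [e1, e2]
    obtain ⟨z', hz'⟩ := div_pow' (m + 1) m _ _ h1
    exact ⟨ee * z', by rw [← mul_assoc, ← pow_succ]; exact hz'⟩
  exact sub_eq_zero.1 this

theorem Y_replicate (m : ℕ) : Y (List.replicate m false) = ee ^ (m + 1) := by
  induction m with
  | zero => simp [Y]
  | succ m ih =>
    show X false * Y (List.replicate m false) = _
    rw [ih, ← pow_succ']

theorem scalar_of_commute {x : Ord} (h1 : x * ee = ee * x)
    (h2 : x * (X true * ee * conj (X true)) = X true * ee * conj (X true) * x) :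
    ∃ p : OK, x = sc p := by
  have c1 := congrArg Om.c h1
  have a1 := congrArg Om.a h1
  have hb : x.b = 0 := by
    simp [X] at c1
    exact c1
  have hd : x.d = 0 := by
    simp [X] at a1
    rw [hb] at a1
    have h3 : (om + 2) * x.d = 0 := by linear_combination a1
    rcases mul_eq_zero.1 h3 with h4 | h4
    · exact absurd h4 (by decide)
    · exact h4
  have hg : X true * ee * conj (X true) = ⟨6 + 4 * om, -(6 + 4 * om), 0, 2 + om⟩ := by decide
  rw [hg] at h2
  have b2 := congrArg Om.b h2
  have hc : x.c = 0 := by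
    simp [hb, hd] at b2
    have hw : om ^ 2 = 4 + om := by decide
    have h3 : (6 + 4 * om) * x.c = 0 := by linear_combination -b2 + (-2 * x.c) * hw
    rcases mul_eq_zero.1 h3 with h4 | h4
    · exact absurd h4 (by decide)
    · exact h4
  exact ⟨x.a, Om.ext rfl hb hc hd⟩

theorem scalar_of_maps {x : Ord} (hx : ∃ y : Ord, x = 1 + sc pi0 * y)
    (h : ∀ u, Maps x u u) : ∃ p : OK, x = sc p := by
  obtain ⟨y, hy⟩ := hx
  have h1 : x * ee = ee * x := by
    apply commute_of_fix
    intro m
    obtain ⟨_, t, ht⟩ := h (List.replicate m false)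
    rw [Y_replicate] at ht
    exact ⟨t, ht⟩
  set x' : Ord := 1 + conj (X true) * y * X true with hx'
  have hXX : X true * conj (X true) = sc pi0 := by decide
  have hXX' : conj (X true) * X true = sc pi0 := by decide
  have h2 : x * X true = X true * x' := by
    rw [hx', hy, add_mul, mul_add, one_mul, mul_one]
    congr 1
    rw [← mul_assoc, ← mul_assoc, hXX]
  have h3 : x' * ee = ee * x' := by
    apply commute_of_fix
    intro m
    obtain ⟨_, t, ht⟩ := h (true :: List.replicate m false)
    refine ⟨t, ?_⟩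
    have hY : Y (true :: List.replicate m false) = X true * ee ^ (m + 1) := by
      show X true * Y (List.replicate m false) = _
      rw [Y_replicate]
    rw [hY] at ht
    apply mul_left_cancel' (nrd_X_ne true)
    rw [← mul_assoc, ← h2, mul_assoc, ht, mul_assoc]
  have h4 : conj (X true) * x = x' * conj (X true) := by
    apply sc_cancel pi0_ne
    calc sc pi0 * (conj (X true) * x) = conj (X true) * x * sc pi0 := by
          unfold sc; rw [C_comm]
      _ = conj (X true) * (x * X true) * conj (X true) := by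
          rw [← hXX]; simp only [mul_assoc]
      _ = conj (X true) * (X true * x') * conj (X true) := by rw [h2]
      _ = sc pi0 * (x' * conj (X true)) := by
          rw [← mul_assoc, hXX', mul_assoc]
  refine scalar_of_commute h1 ?_
  calc x * (X true * ee * conj (X true)) = (x * X true) * ee * conj (X true) := by
        simp only [mul_assoc]
    _ = X true * (x' * ee) * conj (X true) := by rw [h2]; simp only [mul_assoc]
    _ = X true * ee * (x' * conj (X true)) := by rw [h3]; simp only [mul_assoc]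
    _ = X true * ee * conj (X true) * x := by rw [← h4]; simp only [mul_assoc]

theorem theta_eq_one {x : S} (h : theta x = 1) : ∃ p : OK, (x : Ord) = sc p := by
  apply scalar_of_maps x.2.1
  intro u
  have h1 := th_spec x u
  have h2 : th x = 1 := h
  rw [h2] at h1
  exact h1

theorem ne_zero_of_mem {x : Ord} (hx : x ∈ S) : x ≠ 0 := by
  rintro rfl
  have := red0_of_mem hx
  rw [map_zero] at this
  exact absurd this (by decide)

theorem theta_eq_iff (x y : S) : theta x = theta y ↔
    ∃ l m : OK, l ≠ 0 ∧ m ≠ 0 ∧ sc l * (x : Ord) = sc m * (y : Ord) := by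
  constructor
  · intro h
    have h1 : theta (⟨conj (y : Ord), conj_mem y.2⟩ * x) = 1 := by
      rw [map_mul, theta_conj, h, inv_mul_cancel]
    obtain ⟨p, hp⟩ := theta_eq_one h1
    have hp' : conj (y : Ord) * (x : Ord) = sc p := hp
    have hny : nrd (y : Ord) ≠ 0 := fun h => ne_zero_of_mem y.2 (nrd_eq_zero h)
    refine ⟨nrd (y : Ord), p, hny, ?_, ?_⟩
    · rintro rfl
      have h2 : nrd (conj (y : Ord) * (x : Ord)) = 0 := by
        rw [hp']; unfold sc; rw [nrd_C]; ring
      rw [nrd_mul, nrd_conj] at h2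
      rcases mul_eq_zero.1 h2 with h3 | h3
      · exact hny h3
      · exact ne_zero_of_mem x.2 (nrd_eq_zero h3)
    · have h2 : sc (nrd (y : Ord)) = (y : Ord) * conj (y : Ord) := (mul_conj _).symm
      rw [h2, mul_assoc, hp']
      unfold sc
      rw [C_comm]
  · rintro ⟨l, m, hl, hm, h⟩
    -- `z = conj y * x` is a scalar
    have h1 : sc l * (conj (y : Ord) * (x : Ord)) = sc (m * nrd (y : Ord)) := by
      calc sc l * (conj (y : Ord) * (x : Ord)) = conj (y : Ord) * (sc l * (x : Ord)) := by
            unfold sc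
            rw [← mul_assoc, C_comm, mul_assoc]
        _ = conj (y : Ord) * (sc m * (y : Ord)) := by rw [h]
        _ = sc m * (conj (y : Ord) * (y : Ord)) := by
            unfold sc
            rw [← mul_assoc, ← C_comm, mul_assoc]
        _ = sc (m * nrd (y : Ord)) := by
            rw [conj_mul_self]; unfold sc; rw [C_mul]
    have h2 : conj (y : Ord) * (x : Ord) = sc (conj (y : Ord) * (x : Ord)).a := by
      have hb := congrArg Om.b h1
      have hc := congrArg Om.c h1
      have hd := congrArg Om.d h1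
      have key : ∀ t : Ord, (sc l * t).b = l * t.b ∧ (sc l * t).c = l * t.c ∧
          (sc l * t).d = l * t.d := by
        intro t
        refine ⟨?_, ?_, ?_⟩ <;> simp [sc]
      obtain ⟨k1, k2, k3⟩ := key (conj (y : Ord) * (x : Ord))
      rw [k1] at hb
      rw [k2] at hc
      rw [k3] at hd
      have z : ∀ t : OK, l * t = 0 → t = 0 := fun t ht => (mul_eq_zero.1 ht).resolve_left hl
      exact Om.ext rfl (z _ hb) (z _ hc) (z _ hd)
    have h3 : theta (⟨conj (y : Ord), conj_mem y.2⟩ * x) = 1 := theta_sc h2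
    rw [map_mul, theta_conj] at h3
    exact (inv_mul_eq_one.1 h3).symm

end Pool.Agent.H3.Bell
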