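import Pool.Agent.H3.Bell.Gen

set_option autoImplicit false

/-!
# The group of the automaton acts transitively on words of each length
-/

namespace Pool.Agent.H3.Bell

open Finset

/-- words of length `n` -/
def words : ℕ → Finset (List Bool)
  | 0 => {[]}
  | n + 1 => (words n).image (List.cons false) ∪ (words n).image (List.cons true)

theorem mem_words {n : ℕ} {u : List Bool} : u ∈ words n ↔ u.length = n := by
  induction n generalizing u with
  | zero => simp [words]
  | succ n ih =>
    simp only [words, mem_union, mem_image, ih]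
    constructor
    · rintro (⟨v, hv, rfl⟩ | ⟨v, hv, rfl⟩) <;> simp [hv]
    · intro h
      match u, h with
      | false :: v, h => exact Or.inl ⟨v, by simpa using h, rfl⟩
      | true :: v, h => exact Or.inr ⟨v, by simpa using h, rfl⟩

theorem sum_words_succ (n : ℕ) (f : List Bool → ZMod 2) :
    ∑ u ∈ words (n + 1), f u = ∑ u ∈ words n, (f (false :: u) + f (true :: u)) := by
  show ∑ u ∈ (words n).image (List.cons false) ∪ (words n).image (List.cons true), f u = _
  rw [sum_union, sum_image, sum_image, sum_add_distrib]
  · intro a _ b _ h; exact (List.cons.inj h).2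
  · intro a _ b _ h; exact (List.cons.inj h).2
  · rw [disjoint_left]
    rintro u hu hu'
    obtain ⟨v, _, rfl⟩ := mem_image.1 hu
    obtain ⟨v', _, h⟩ := mem_image.1 hu'
    exact absurd (List.cons.inj h).1 (by decide)

/-- is the section of the state at the word `u` active? -/
def sw : St → List Bool → Bool
  | St.c, [] => true
  | _, [] => false
  | s, i :: u => sw (next s i) u

theorem act_append (s : St) (u : List Bool) (i : Bool) :
    act s (u ++ [i]) = act s u ++ [xor i (sw s u)] := by
  induction u generalizing s with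
  | nil => cases s <;> simp [act, out, sw]
  | cons j u ih =>
    show out s j :: act (next s j) (u ++ [i]) = _
    rw [ih]
    cases s <;> rfl

/-- Boolean as an element of `ZMod 2` -/
def z2 (b : Bool) : ZMod 2 := if b then 1 else 0

theorem z2_xor (a b : Bool) : z2 (xor a b) = z2 a + z2 b := by
  cases a <;> cases b <;> decide

theorem sw_cons (s : St) (i : Bool) (u : List Bool) : sw s (i :: u) = sw (next s i) u := by
  cases s <;> rfl

theorem parity (n : ℕ) : (∑ u ∈ words (n + 1), z2 (sw St.a u)) = 1 ∧
    (∑ u ∈ words (n + 1), z2 (sw St.b u)) = 1 ∧ (∑ u ∈ words (n + 1), z2 (sw St.c u)) = 0 := by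
  induction n with
  | zero => refine ⟨?_, ?_, ?_⟩ <;> decide
  | succ n ih =>
    obtain ⟨ha, hb, hc⟩ := ih
    refine ⟨?_, ?_, ?_⟩
    · rw [sum_words_succ]
      simp only [sw_cons, next]
      rw [sum_add_distrib, hb, hc]; decide
    · rw [sum_words_succ]
      simp only [sw_cons, next]
      rw [sum_add_distrib, hb, hc]; decide
    · rw [sum_words_succ]
      simp only [sw_cons, next]
      rw [sum_add_distrib, ha]; decide

theorem exists_odd (n : ℕ) : ∃ s : St, (∑ u ∈ words n, z2 (sw s u)) = 1 := by
  cases n with
  | zero => exact ⟨St.c, by decide⟩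
  | succ n => exact ⟨St.a, (parity n).1⟩

theorem length_G {g : Equiv.Perm (List Bool)} (hg : g ∈ G) (u : List Bool) :
    (g u).length = u.length := by
  induction hg using Subgroup.closure_induction generalizing u with
  | mem x hx => obtain ⟨s, rfl⟩ := hx; exact length_act s u
  | one => rfl
  | mul x y _ _ hx hy => rw [Equiv.Perm.mul_apply, hx, hy]
  | inv x _ hx =>
    have := hx (x⁻¹ u)
    rw [← this]; simp

theorem append_G {g : Equiv.Perm (List Bool)} (hg : g ∈ G) (u : List Bool) :
    ∃ σ : Bool, ∀ i, g (u ++ [i]) = g u ++ [xor i σ] := by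
  induction hg using Subgroup.closure_induction generalizing u with
  | mem x hx => obtain ⟨s, rfl⟩ := hx; exact ⟨sw s u, fun i => act_append s u i⟩
  | one => exact ⟨false, fun i => by simp⟩
  | mul x y _ _ hx hy =>
    obtain ⟨σ, hσ⟩ := hy u
    obtain ⟨τ, hτ⟩ := hx (y u)
    exact ⟨xor σ τ, fun i => by rw [Equiv.Perm.mul_apply, hσ, hτ, Equiv.Perm.mul_apply]; simp⟩
  | inv x _ hx =>
    obtain ⟨σ, hσ⟩ := hx (x⁻¹ u)
    refine ⟨σ, fun i => ?_⟩
    rw [Equiv.Perm.inv_eq_iff_eq, hσ]
    simp

theorem transitive (n : ℕ) : ∀ u v : List Bool, u.length = n → v.length = n →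
    ∃ g ∈ G, g u = v := by
  induction n with
  | zero =>
    intro u v hu hv
    rw [List.length_eq_zero_iff] at hu hv
    exact ⟨1, G.one_mem, by rw [hu, hv]; rfl⟩
  | succ n ih =>
    classical
    -- one word where the two extensions are in one orbit suffices
    have main : ∃ v : List Bool, v.length = n ∧ ∃ g ∈ G, g (v ++ [false]) = v ++ [true] := by
      by_contra hcon
      push Not at hcon
      set v0 : List Bool := List.replicate n false with hv0
      have hv0l : v0.length = n := List.length_replicate
      have hex : ∀ u : List Bool, ∃ i : Bool, u.length = n →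
          ∃ g ∈ G, g (v0 ++ [false]) = u ++ [i] := by
        intro u
        by_cases hu : u.length = n
        · obtain ⟨g, hg, hgu⟩ := ih v0 u hv0l hu
          obtain ⟨σ, hσ⟩ := append_G hg v0
          exact ⟨xor false σ, fun _ => ⟨g, hg, by rw [hσ, hgu]⟩⟩
        · exact ⟨false, fun h => absurd h hu⟩
      choose t ht using hex
      have huniq : ∀ u : List Bool, u.length = n → ∀ i : Bool,
          (∃ g ∈ G, g (v0 ++ [false]) = u ++ [i]) → i = t u := by
        intro u hu i ⟨g, hg, hgi⟩
        obtain ⟨h, hh, hhi⟩ := ht u hu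
        by_contra hne
        -- then `u ++ [i]` and `u ++ [t u]` are in one orbit
        have h1 : (h * g⁻¹) (u ++ [i]) = u ++ [t u] := by
          rw [Equiv.Perm.mul_apply, ← hgi]; simp [hhi]
        have hm : h * g⁻¹ ∈ G := G.mul_mem hh (G.inv_mem hg)
        have h2 : (h * g⁻¹)⁻¹ (u ++ [t u]) = u ++ [i] := by rw [← h1]; simp
        cases hi : i <;> cases htu : t u
        · exact hne (by rw [hi, htu])
        · exact hcon u hu _ hm (by rw [hi, htu] at h1; exact h1)
        · exact hcon u hu _ (G.inv_mem hm) (by rw [hi, htu] at h2; exact h2)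
        · exact hne (by rw [hi, htu])
      obtain ⟨s, hs⟩ := exists_odd n
      have hstep : ∀ u : List Bool, u.length = n → t (act s u) = xor (t u) (sw s u) := by
        intro u hu
        obtain ⟨g, hg, hgi⟩ := ht u hu
        refine (huniq (act s u) (by rw [length_act, hu]) _ ⟨perm s * g,
          G.mul_mem (Subgroup.subset_closure ⟨s, rfl⟩) hg, ?_⟩).symm
        rw [Equiv.Perm.mul_apply, hgi]
        exact act_append s u _
      have h1 : ∑ u ∈ words n, z2 (t (act s u)) = ∑ u ∈ words n, z2 (t u) := by
        refine sum_bij (fun u _ => act s u) ?_ ?_ ?_ ?_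
        · intro u hu; rw [mem_words] at hu ⊢; rw [length_act, hu]
        · intro a _ b _ h
          have := congrArg (act s) h
          rwa [act_act, act_act] at this
        · intro b hb
          refine ⟨act s b, ?_, act_act s b⟩
          rw [mem_words] at hb ⊢; rw [length_act, hb]
        · intro u _; rfl
      have h2 : ∑ u ∈ words n, z2 (t (act s u)) =
          ∑ u ∈ words n, (z2 (t u) + z2 (sw s u)) := by
        apply sum_congr rfl
        intro u hu
        rw [hstep u (mem_words.1 hu), z2_xor]
      rw [h1, sum_add_distrib, hs] at h2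
      exact absurd h2 (by
        intro h
        have : (1 : ZMod 2) = 0 := by
          have := left_eq_add.1 h
          exact this
        exact absurd this (by decide))
    obtain ⟨v, hv, g0, hg0, h0⟩ := main
    -- all extensions of all words are in one orbit
    have key : ∀ u : List Bool, u.length = n → ∀ i j : Bool, ∃ g ∈ G, g (u ++ [i]) = u ++ [j] := by
      intro u hu i j
      obtain ⟨h, hh, hhu⟩ := ih v u hv hu
      obtain ⟨σ, hσ⟩ := append_G hh v
      have e : h (v ++ [false]) = u ++ [σ] := by rw [hσ, hhu]; simp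
      have e' : h (v ++ [true]) = u ++ [!σ] := by rw [hσ, hhu]; simp
      have f1 : (h * g0 * h⁻¹) (u ++ [σ]) = u ++ [!σ] := by
        rw [Equiv.Perm.mul_apply, Equiv.Perm.mul_apply, ← e]
        simp [h0, e']
      have hm : h * g0 * h⁻¹ ∈ G := G.mul_mem (G.mul_mem hh hg0) (G.inv_mem hh)
      have f2 : (h * g0 * h⁻¹)⁻¹ (u ++ [!σ]) = u ++ [σ] := by rw [← f1]; simp
      by_cases hij : i = j
      · exact ⟨1, G.one_mem, by rw [hij]; rfl⟩
      · by_cases hi : i = σ
        · have hj : j = !σ := by
            cases i <;> cases j <;> simp_all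
          exact ⟨_, hm, by rw [hi, hj]; exact f1⟩
        · have hi' : i = !σ := by
            cases i <;> cases σ <;> simp_all
          have hj : j = σ := by
            cases i <;> cases j <;> simp_all
          exact ⟨_, G.inv_mem hm, by rw [hi', hj]; exact f2⟩
    intro u v hu hv
    obtain ⟨u', i, rfl⟩ : ∃ u' i, u = u' ++ [i] := by
      have : u ≠ [] := by rintro rfl; simp at hu
      exact ⟨u.dropLast, u.getLast this, (List.dropLast_append_getLast this).symm⟩
    obtain ⟨v', j, rfl⟩ : ∃ v' j, v = v' ++ [j] := by
      have : v ≠ [] := by rintro rfl; simp at hv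
      exact ⟨v.dropLast, v.getLast this, (List.dropLast_append_getLast this).symm⟩
    have hu' : u'.length = n := by simpa using hu
    have hv' : v'.length = n := by simpa using hv
    obtain ⟨g, hg, hgu⟩ := ih u' v' hu' hv'
    obtain ⟨σ, hσ⟩ := append_G hg u'
    obtain ⟨h, hh, hhv⟩ := key v' hv' (xor i σ) j
    exact ⟨h * g, G.mul_mem hh hg, by rw [Equiv.Perm.mul_apply, hσ, hgu, hhv]⟩

end Pool.Agent.H3.Bell
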