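import Pool.Agent.H3.Bell.Inj
import Pool.Agent.H3.Bell.Trans

set_option autoImplicit false

/-!
# Word length and the exponent of `π'` in the reduced norm; definiteness; discriminant
-/

namespace Pool.Agent.H3.Bell

open Om

theorem r1_unit (u : OKˣ) : r1 u = 1 := by
  have h : r1 u * r1 (u⁻¹ : OKˣ) = 1 := by
    rw [← map_mul, Units.mul_inv, map_one]
  have : ∀ a b : ZMod 2, a * b = 1 → a = 1 := by decide
  exact this _ _ h

theorem red1_sc_mul (a : OK) (x : Ord) : red1 (sc a * x) = Om.C 1 (r1 a) * red1 x := by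
  have h : red1 (sc a) = Om.C 1 (r1 a) := by
    unfold red1 sc Om.map Om.C
    simp
  rw [map_mul, h]

theorem descent (n : ℕ) : ∀ (a b : OK) (x y : Ord) (u u' : OKˣ) (r k : ℕ), a ≠ 0 →
    (N a).natAbs ≤ n → k < r → red1 x ≠ 0 → nrd x = u * pi1 ^ r → nrd y = u' * pi1 ^ k →
    sc a * x = sc b * y → False := by
  induction n with
  | zero =>
    intro a b x y u u' r k ha hn _ _ _ _ _
    have : N a = 0 := Int.natAbs_eq_zero.1 (Nat.le_zero.1 hn)
    exact ha (N_eq_zero this)
  | succ n ih =>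
    intro a b x y u u' r k ha hn hkr hx hnx hny h
    have h1 : a ^ 2 * (u * pi1 ^ r) = b ^ 2 * (u' * pi1 ^ k) := by
      have := congrArg nrd h
      rw [nrd_mul, nrd_mul, hnx, hny] at this
      simpa [sc, nrd_C] using this
    obtain ⟨j, rfl⟩ := Nat.exists_eq_add_of_lt hkr
    have h2 : a ^ 2 * (u * pi1 ^ (j + 1)) = b ^ 2 * u' := by
      apply mul_left_cancel₀ (pow_ne_zero k pi1_ne)
      calc pi1 ^ k * (a ^ 2 * (u * pi1 ^ (j + 1))) = a ^ 2 * (u * pi1 ^ (k + j + 1)) := by ring
        _ = b ^ 2 * (u' * pi1 ^ k) := h1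
        _ = _ := by ring
    have h3 : r1 b = 0 := by
      have := congrArg r1 h2
      rw [map_mul, map_mul, map_mul, map_pow, map_pow, map_pow, r1_unit, r1_unit] at this
      have h4 : r1 pi1 = 0 := by decide
      rw [h4, zero_pow (Nat.succ_ne_zero j), mul_zero, mul_zero, mul_one] at this
      exact pow_eq_zero_iff (two_ne_zero) |>.1 this.symm
    obtain ⟨b1, rfl⟩ := r1_dvd h3
    have h5 : r1 a = 0 := by
      have h6 := congrArg red1 h
      rw [red1_sc_mul, red1_sc_mul, h3] at h6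
      by_contra hne
      have h7 : r1 a = 1 := by
        have : ∀ t : ZMod 2, t ≠ 0 → t = 1 := by decide
        exact this _ hne
      rw [h7] at h6
      apply hx
      have h8 : (Om.C 1 (1 : ZMod 2)) = (1 : Om (ZMod 2) 1) := rfl
      have h9 : (Om.C 1 (0 : ZMod 2)) = (0 : Om (ZMod 2) 1) := rfl
      rw [h8, h9, one_mul, zero_mul] at h6
      exact h6
    obtain ⟨a1, rfl⟩ := r1_dvd h5
    have ha1 : a1 ≠ 0 := by rintro rfl; simp at ha
    have h10 : sc a1 * x = sc b1 * y := by
      apply sc_cancel pi1_ne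
      unfold sc at h ⊢
      rw [← mul_assoc, ← mul_assoc, ← C_mul, ← C_mul]
      exact h
    refine ih a1 b1 x y u u' _ k ha1 ?_ hkr hx hnx hny h10
    have h11 : N (pi1 * a1) = 2 * N a1 := by
      rw [N_mul]; have : N pi1 = 2 := by decide
      rw [this]
    have h12 : 0 < (N a1).natAbs := Int.natAbs_pos.2 (fun h => ha1 (N_eq_zero h))
    have h13 : (2 : ℤ).natAbs = 2 := rfl
    rw [h11, Int.natAbs_mul, h13] at hn
    omega

theorem gprod_mem (l : List St) : gprod l ∈ S := by
  induction l with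
  | nil => exact S.one_mem
  | cons s l ih => exact S.mul_mem (gen_mem s) ih

theorem nrd_gprod (l : List St) : nrd (gprod l) = pi1 ^ l.length := by
  induction l with
  | nil => simp [gprod, nrd_one]
  | cons s l ih =>
    show nrd (gen s * gprod l) = _
    rw [nrd_mul, nrd_gen, ih, List.length_cons, pow_succ']

theorem theta_gprod (l : List St) : (theta ⟨gprod l, gprod_mem l⟩ : Equiv.Perm _) = pprod l := by
  have : theta ⟨gprod l, gprod_mem l⟩ = ⟨pprod l, pprod_mem l⟩ := by
    apply th_eq_of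
    intro u
    exact maps_gprod l u
  rw [this]

/-- not fewer than `r` factors -/
theorem length_ge (x : S) (r : ℕ) (hprim : ¬ ∃ y : Ord, (x : Ord) = sc pi1 * y) (u : OKˣ)
    (hn : nrd (x : Ord) = u * pi1 ^ r) (l : List St) (hl : (theta x : Equiv.Perm _) = pprod l) :
    r ≤ l.length := by
  by_contra hlt
  push Not at hlt
  have h1 : theta x = theta ⟨gprod l, gprod_mem l⟩ := by
    apply Subtype.ext
    rw [theta_gprod, hl]
  obtain ⟨a, b, ha, hb, hab⟩ := (theta_eq_iff x _).1 h1
  refine descent (N a).natAbs a b x (gprod l) u 1 r l.length ha le_rfl hlt ?_ hn ?_ hab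
  · intro h
    exact hprim (red1_dvd h)
  · rw [nrd_gprod]; simp

/-- exactly `r` factors suffice -/
theorem length_eq (x : S) (r : ℕ) (hprim : ¬ ∃ y : Ord, (x : Ord) = sc pi1 * y) (u : OKˣ)
    (hn : nrd (x : Ord) = u * pi1 ^ r) :
    ∃ l : List St, l.length = r ∧ (theta x : Equiv.Perm _) = pprod l := by
  obtain ⟨c, l, hl, hc, hlen⟩ := gen_induct r x u hn (red0_of_mem x.2)
  have h1 : (theta x : Equiv.Perm _) = pprod l := by
    have : theta x = ⟨pprod l, pprod_mem l⟩ := by
      apply th_eq_of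
      intro w
      rw [hl]
      exact Maps.mul (maps_gprod l w) (maps_sc c _)
    rw [this]
  exact ⟨l, le_antisymm hlen (length_ge x r hprim u hn l h1), h1⟩

/-- the basis `1, ρ, e, ρe` -/
def bas : Fin 4 → Ord := ![⟨1, 0, 0, 0⟩, ⟨0, 1, 0, 0⟩, ⟨0, 0, 1, 0⟩, ⟨0, 0, 0, 1⟩]

theorem disc : (Matrix.of fun i j : Fin 4 => tr (bas i * conj (bas j))).det = 1 := by
  rw [Matrix.det_succ_row_zero]
  simp only [Fin.sum_univ_succ, Matrix.det_fin_three, Matrix.submatrix_apply, Matrix.of_apply]
  decide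

end Pool.Agent.H3.Bell
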