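import Mathlib

set_option autoImplicit false

/-!
# A quaternion ring of rank four over a commutative ring `R` with a chosen element `w`

`Om R w` is the free `R`-module with basis `1, r, e, re` and the multiplication determined by
`r^2 = r - 1`, `e^2 = (w+1) e - (w+2)`, `e r = -(w+1) + (w+1) r + e - re`.
-/

namespace Pool.Agent.H3.Bell

/-- The quaternion ring with basis `1, ρ, e, ρe` over `R`; the structure `⟨a, b, c, d⟩` stands for
`a + b ρ + c e + d ρe`. -/
@[ext]
structure Om (R : Type) (w : R) where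
  a : R
  b : R
  c : R
  d : R
deriving DecidableEq

namespace Om

variable {R : Type} [CommRing R] {w : R}

instance : Zero (Om R w) := ⟨⟨0, 0, 0, 0⟩⟩
instance : One (Om R w) := ⟨⟨1, 0, 0, 0⟩⟩
instance : Add (Om R w) := ⟨fun x y => ⟨x.a + y.a, x.b + y.b, x.c + y.c, x.d + y.d⟩⟩
instance : Neg (Om R w) := ⟨fun x => ⟨-x.a, -x.b, -x.c, -x.d⟩⟩
instance : Sub (Om R w) := ⟨fun x y => ⟨x.a - y.a, x.b - y.b, x.c - y.c, x.d - y.d⟩⟩

/-- Multiplication: `ρ² = ρ - 1`, `e² = (w+1)e - (w+2)`, `eρ = -(w+1) + (w+1)ρ + e - ρe`. -/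
instance : Mul (Om R w) := ⟨fun x y =>
  ⟨x.a * y.a - x.b * y.b - (w + 1) * x.c * y.b - (w + 2) * x.c * y.c - (w + 2) * x.c * y.d
      - (w + 1) * x.d * y.b - (w + 2) * x.d * y.d,
   x.a * y.b + x.b * y.a + x.b * y.b + (w + 1) * x.c * y.b + (w + 2) * x.c * y.d
      - (w + 2) * x.d * y.c,
   x.a * y.c - x.b * y.d + x.c * y.a + x.c * y.b + (w + 1) * x.c * y.c + x.d * y.b,
   x.a * y.d + x.b * y.c + x.b * y.d - x.c * y.b + x.d * y.a + (w + 1) * x.d * y.c⟩⟩

@[simp] theorem a_zero : (0 : Om R w).a = 0 := rfl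
@[simp] theorem b_zero : (0 : Om R w).b = 0 := rfl
@[simp] theorem c_zero : (0 : Om R w).c = 0 := rfl
@[simp] theorem d_zero : (0 : Om R w).d = 0 := rfl
@[simp] theorem a_one : (1 : Om R w).a = 1 := rfl
@[simp] theorem b_one : (1 : Om R w).b = 0 := rfl
@[simp] theorem c_one : (1 : Om R w).c = 0 := rfl
@[simp] theorem d_one : (1 : Om R w).d = 0 := rfl
@[simp] theorem a_add (x y : Om R w) : (x + y).a = x.a + y.a := rfl
@[simp] theorem b_add (x y : Om R w) : (x + y).b = x.b + y.b := rfl
@[simp] theorem c_add (x y : Om R w) : (x + y).c = x.c + y.c := rfl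
@[simp] theorem d_add (x y : Om R w) : (x + y).d = x.d + y.d := rfl
@[simp] theorem a_neg (x : Om R w) : (-x).a = -x.a := rfl
@[simp] theorem b_neg (x : Om R w) : (-x).b = -x.b := rfl
@[simp] theorem c_neg (x : Om R w) : (-x).c = -x.c := rfl
@[simp] theorem d_neg (x : Om R w) : (-x).d = -x.d := rfl
@[simp] theorem a_sub (x y : Om R w) : (x - y).a = x.a - y.a := rfl
@[simp] theorem b_sub (x y : Om R w) : (x - y).b = x.b - y.b := rfl
@[simp] theorem c_sub (x y : Om R w) : (x - y).c = x.c - y.c := rfl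
@[simp] theorem d_sub (x y : Om R w) : (x - y).d = x.d - y.d := rfl
@[simp] theorem a_mul (x y : Om R w) : (x * y).a =
    x.a * y.a - x.b * y.b - (w + 1) * x.c * y.b - (w + 2) * x.c * y.c - (w + 2) * x.c * y.d
      - (w + 1) * x.d * y.b - (w + 2) * x.d * y.d := rfl
@[simp] theorem b_mul (x y : Om R w) : (x * y).b =
    x.a * y.b + x.b * y.a + x.b * y.b + (w + 1) * x.c * y.b + (w + 2) * x.c * y.d
      - (w + 2) * x.d * y.c := rfl
@[simp] theorem c_mul (x y : Om R w) : (x * y).c =
    x.a * y.c - x.b * y.d + x.c * y.a + x.c * y.b + (w + 1) * x.c * y.c + x.d * y.b := rfl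
@[simp] theorem d_mul (x y : Om R w) : (x * y).d =
    x.a * y.d + x.b * y.c + x.b * y.d - x.c * y.b + x.d * y.a + (w + 1) * x.d * y.c := rfl

instance : Ring (Om R w) where
  add_assoc x y z := by ext <;> simp <;> ring
  zero_add x := by ext <;> simp
  add_zero x := by ext <;> simp
  add_comm x y := by ext <;> simp <;> ring
  neg_add_cancel x := by ext <;> simp
  sub_eq_add_neg x y := by ext <;> simp <;> ring
  left_distrib x y z := by ext <;> simp <;> ring
  right_distrib x y z := by ext <;> simp <;> ring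
  zero_mul x := by ext <;> simp
  mul_zero x := by ext <;> simp
  one_mul x := by ext <;> simp
  mul_one x := by ext <;> simp
  mul_assoc x y z := by ext <;> simp <;> ring
  nsmul := nsmulRec
  zsmul := zsmulRec

/-- scalars -/
def C (w : R) (t : R) : Om R w := ⟨t, 0, 0, 0⟩

@[simp] theorem a_C (t : R) : (C w t).a = t := rfl
@[simp] theorem b_C (t : R) : (C w t).b = 0 := rfl
@[simp] theorem c_C (t : R) : (C w t).c = 0 := rfl
@[simp] theorem d_C (t : R) : (C w t).d = 0 := rfl

theorem C_mul (s t : R) : C w (s * t) = C w s * C w t := by ext <;> simp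
theorem C_add (s t : R) : C w (s + t) = C w s + C w t := by ext <;> simp
theorem C_sub (s t : R) : C w (s - t) = C w s - C w t := by ext <;> simp
theorem C_neg (s : R) : C w (-s) = - C w s := by ext <;> simp
theorem C_one : C w (1 : R) = 1 := by ext <;> simp
theorem C_zero : C w (0 : R) = 0 := by ext <;> simp
theorem C_pow (s : R) (n : ℕ) : C w (s ^ n) = C w s ^ n := by
  induction n with
  | zero => simp [C_one]
  | succ n ih => rw [pow_succ, pow_succ, C_mul, ih]

theorem C_inj {s t : R} (h : C w s = C w t) : s = t := congrArg Om.a h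

theorem C_comm (t : R) (x : Om R w) : C w t * x = x * C w t := by ext <;> simp <;> ring

/-- reduced trace -/
def tr (x : Om R w) : R := 2 * x.a + x.b + (w + 1) * x.c

/-- conjugation -/
def conj (x : Om R w) : Om R w := ⟨x.a + x.b + (w + 1) * x.c, -x.b, -x.c, -x.d⟩

/-- reduced norm -/
def nrd (x : Om R w) : R :=
  x.a ^ 2 + x.b ^ 2 + (w + 2) * (x.c ^ 2 + x.d ^ 2 + x.c * x.d) + x.a * x.b
    + (w + 1) * (x.a * x.c + x.b * x.c + x.b * x.d)

@[simp] theorem a_conj (x : Om R w) : (conj x).a = x.a + x.b + (w + 1) * x.c := rfl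
@[simp] theorem b_conj (x : Om R w) : (conj x).b = -x.b := rfl
@[simp] theorem c_conj (x : Om R w) : (conj x).c = -x.c := rfl
@[simp] theorem d_conj (x : Om R w) : (conj x).d = -x.d := rfl

theorem mul_conj (x : Om R w) : x * conj x = C w (nrd x) := by
  ext <;> simp [nrd] <;> ring

theorem conj_mul_self (x : Om R w) : conj x * x = C w (nrd x) := by
  ext <;> simp [nrd] <;> ring

theorem conj_mul (x y : Om R w) : conj (x * y) = conj y * conj x := by
  ext <;> simp <;> ring

theorem conj_conj (x : Om R w) : conj (conj x) = x := by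
  ext <;> simp <;> ring

theorem add_conj (x : Om R w) : x + conj x = C w (tr x) := by
  ext <;> simp [tr]
  ring

theorem nrd_mul (x y : Om R w) : nrd (x * y) = nrd x * nrd y := by
  have h : C w (nrd (x * y)) = C w (nrd x * nrd y) := by
    rw [← mul_conj, conj_mul, C_mul]
    calc x * y * (conj y * conj x) = x * (y * conj y) * conj x := by simp only [mul_assoc]
      _ = x * C w (nrd y) * conj x := by rw [mul_conj]
      _ = C w (nrd y) * (x * conj x) := by rw [← C_comm, mul_assoc]
      _ = C w (nrd x) * C w (nrd y) := by rw [mul_conj, C_comm]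
  exact C_inj h

theorem nrd_conj (x : Om R w) : nrd (conj x) = nrd x := by
  simp [nrd]; ring

theorem nrd_C (t : R) : nrd (C w t) = t ^ 2 := by simp [nrd]

theorem nrd_one : nrd (1 : Om R w) = 1 := by simp [nrd]

/-- functoriality -/
def map {S : Type} [CommRing S] {w' : S} (f : R →+* S) (h : f w = w') : Om R w →+* Om S w' where
  toFun x := ⟨f x.a, f x.b, f x.c, f x.d⟩
  map_one' := by ext <;> simp
  map_zero' := by ext <;> simp
  map_add' x y := by ext <;> simp
  map_mul' x y := by
    have h2 : f 2 = 2 := map_ofNat f 2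
    subst h
    ext <;> simp [h2]

theorem nrd_map {S : Type} [CommRing S] {w' : S} (f : R →+* S) (h : f w = w') (x : Om R w) :
    nrd (map f h x) = f (nrd x) := by
  have h2 : f 2 = 2 := map_ofNat f 2
  subst h
  simp [nrd, map, h2]

end Om

end Pool.Agent.H3.Bell
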