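import Pool.Agent.H3.Bell.Len

set_option autoImplicit false

/-!
# Names for the parts of the statement
-/

namespace Pool.Agent.H3.Bell

open Om

/-- the reduced norm of a nonzero element of `O` is totally positive -/
def TotallyDefinite : Prop := ∀ x : Ord, x ≠ 0 → 0 < fp (nrd x) ∧ 0 < fm (nrd x)

/-- the matrix of the trace form `tr (x * conj y)` in the basis `1, ρ, e, ρe` -/
def traceForm : Matrix (Fin 4) (Fin 4) OK := Matrix.of fun i j => tr (bas i * conj (bas j))

/-- `Y u` has reduced norm `π ^ (n+1)`, `n` the length of `u` -/
def NormY : Prop := ∀ u : List Bool, nrd (Y u) = pi0 ^ (u.length + 1)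

/-- the group of the automaton is transitive on the words of each length -/
def LevelTransitive : Prop := ∀ u v : List Bool, u.length = v.length → ∃ g ∈ G, g u = v

/-- `x` and `y` are proportional over `K` -/
def Proportional (x y : Ord) : Prop := ∃ l m : OK, l ≠ 0 ∧ m ≠ 0 ∧ sc l * x = sc m * y

/-- `x` is not divisible by `π'` -/
def Primitive (x : Ord) : Prop := ¬ ∃ y : Ord, x = sc pi1 * y

/-- the reduced norm of `x` is a unit times `π' ^ r` -/
def NormExp (x : Ord) (r : ℕ) : Prop := ∃ w : OKˣ, nrd x = w * pi1 ^ r

/-- the discriminant of `O` is 1 -/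
def DiscriminantOne : Prop := traceForm.det = 1

/-- homomorphisms from the monoid `S` to the group `G` of the automaton -/
def Hom : Type := S →* G

/-- the permutation of words attached to an element of `S` by `θ` -/
def val (θ : Hom) (x : S) : Equiv.Perm (List Bool) :=
  let f : S →* G := θ
  f x

/-- every element of the group `G` is the image of an element of `S` -/
def Onto (θ : Hom) : Prop := ∀ g ∈ G, ∃ x : S, val θ x = g

/-- the permutation `g` is a product of `r` states and of no fewer -/
def HasLength (g : Equiv.Perm (List Bool)) (r : ℕ) : Prop :=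
  (∃ l : List St, l.length = r ∧ g = (l.map perm).prod) ∧
    ∀ l : List St, g = (l.map perm).prod → r ≤ l.length

/-- `x * Y u` lies in the right ideal `Y v * O` -/
def SendsIdeal (x : Ord) (u v : List Bool) : Prop := ∃ t : Ord, x * Y u = Y v * t

/-- the kernel of `θ` consists of the scalars in the strong sense that `θ x = θ y` iff `x` and `y` are
proportional -/
def KernelScalars (θ : Hom) : Prop :=
  ∀ x y : S, val θ x = val θ y ↔ Proportional x y

/-- every state is the image of an element of reduced norm `π'` -/
def StatesFromNorm (θ : Hom) : Prop := ∀ s : St, ∃ x : S, nrd x.1 = pi1 ∧ val θ x = perm s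

/-- word length is the exponent of `π'` in the reduced norm of a primitive element -/
def LengthIsExponent (θ : Hom) : Prop :=
  ∀ (x : S) (r : ℕ), Primitive x → NormExp x r → HasLength (val θ x) r

/-- the action on words is the action on the right ideals `Y u * O` -/
def ActionOnIdeals (θ : Hom) : Prop :=
  ∀ (x : S) (u v : List Bool), u.length = v.length → (val θ x u = v ↔ SendsIdeal x u v)

end Pool.Agent.H3.Bell
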