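import Pool.Agent.H3.Bell.Act

set_option autoImplicit false

/-!
# Positivity, units, and the elements of unit norm congruent to 1 modulo `π`
-/

namespace Pool.Agent.H3.Bell

open Om

/-- the real embedding `ω ↦ θ` -/
noncomputable def emb (θ : ℝ) (h : θ ^ 2 = 4 + θ) : OK →+* ℝ where
  toFun z := z.re + z.im * θ
  map_one' := by simp [QuadraticAlgebra.re_one, QuadraticAlgebra.im_one]
  map_zero' := by simp
  map_add' x y := by simp; ring
  map_mul' x y := by
    simp
    linear_combination (-(x.im : ℝ) * y.im) * h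

theorem emb_apply (θ : ℝ) (h : θ ^ 2 = 4 + θ) (z : OK) : emb θ h z = z.re + z.im * θ := rfl

/-- `(1+√17)/2` -/
noncomputable def thp : ℝ := (1 + Real.sqrt 17) / 2

/-- `(1-√17)/2` -/
noncomputable def thm : ℝ := (1 - Real.sqrt 17) / 2

theorem thp_sq : thp ^ 2 = 4 + thp := by
  have h : Real.sqrt 17 ^ 2 = 17 := Real.sq_sqrt (by norm_num)
  unfold thp; nlinarith

theorem thm_sq : thm ^ 2 = 4 + thm := by
  have h : Real.sqrt 17 ^ 2 = 17 := Real.sq_sqrt (by norm_num)
  unfold thm; nlinarith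

noncomputable def fp : OK →+* ℝ := emb thp thp_sq
noncomputable def fm : OK →+* ℝ := emb thm thm_sq

theorem N_eq (z : OK) : (N z : ℝ) = fp z * fm z := by
  have h : Real.sqrt 17 ^ 2 = 17 := Real.sq_sqrt (by norm_num)
  simp only [fp, fm, emb_apply, thp, thm, N]
  push_cast
  linear_combination ((z.im : ℝ) ^ 2 / 4) * h

theorem fp_inj {z : OK} (h : fp z = 0) : z = 0 := by
  apply N_eq_zero
  have : (N z : ℝ) = 0 := by rw [N_eq, h, zero_mul]
  exact_mod_cast this

theorem fm_inj {z : OK} (h : fm z = 0) : z = 0 := by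
  apply N_eq_zero
  have : (N z : ℝ) = 0 := by rw [N_eq, h, mul_zero]
  exact_mod_cast this

theorem nrd_identity (x : Ord) : 12 * nrd x =
    3 * (2 * x.a + x.b + (om + 1) * x.c) ^ 2 + (3 * x.b + (om + 1) * (x.c + 2 * x.d)) ^ 2
      + 4 * (x.c ^ 2 + x.c * x.d + x.d ^ 2) := by
  have h : om ^ 2 = 4 + om := by decide
  unfold nrd
  linear_combination (-3 * x.c ^ 2 - (x.c + 2 * x.d) ^ 2) * h

theorem map_nrd_identity (f : OK →+* ℝ) (x : Ord) : 12 * f (nrd x) =
    3 * (2 * f x.a + f x.b + (f om + 1) * f x.c) ^ 2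
      + (3 * f x.b + (f om + 1) * (f x.c + 2 * f x.d)) ^ 2
      + 4 * (f x.c ^ 2 + f x.c * f x.d + f x.d ^ 2) := by
  have h := congrArg f (nrd_identity x)
  have f2 : f 2 = 2 := map_ofNat f 2
  have f3 : f 3 = 3 := map_ofNat f 3
  have f4 : f 4 = 4 := map_ofNat f 4
  have f12 : f 12 = 12 := map_ofNat f 12
  simpa [f2, f3, f4, f12] using h

theorem nrd_nonneg (f : OK →+* ℝ) (x : Ord) : 0 ≤ f (nrd x) := by
  have h := map_nrd_identity f x
  nlinarith [sq_nonneg (2 * f x.a + f x.b + (f om + 1) * f x.c),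
    sq_nonneg (3 * f x.b + (f om + 1) * (f x.c + 2 * f x.d)), sq_nonneg (2 * f x.c + f x.d),
    sq_nonneg (f x.d)]

theorem nrd_eq_zero {x : Ord} (hx : nrd x = 0) : x = 0 := by
  have h := map_nrd_identity fp x
  rw [hx, map_zero] at h
  have hd : fp x.d = 0 := by
    nlinarith [sq_nonneg (2 * fp x.a + fp x.b + (fp om + 1) * fp x.c),
      sq_nonneg (3 * fp x.b + (fp om + 1) * (fp x.c + 2 * fp x.d)), sq_nonneg (2 * fp x.c + fp x.d),
      sq_nonneg (fp x.d)]
  have hc : fp x.c = 0 := by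
    rw [hd] at h
    nlinarith [sq_nonneg (2 * fp x.a + fp x.b + (fp om + 1) * fp x.c),
      sq_nonneg (3 * fp x.b + (fp om + 1) * (fp x.c + 2 * 0)), sq_nonneg (fp x.c)]
  have hb : fp x.b = 0 := by
    rw [hd, hc] at h
    nlinarith [sq_nonneg (2 * fp x.a + fp x.b + (fp om + 1) * 0), sq_nonneg (fp x.b)]
  have ha : fp x.a = 0 := by
    rw [hd, hc, hb] at h
    nlinarith [sq_nonneg (fp x.a)]
  exact Om.ext (fp_inj ha) (fp_inj hb) (fp_inj hc) (fp_inj hd)

theorem fp_nrd_pos {x : Ord} (hx : x ≠ 0) : 0 < fp (nrd x) := by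
  rcases (nrd_nonneg fp x).lt_or_eq with h | h
  · exact h
  · exact absurd (nrd_eq_zero (fp_inj h.symm)) hx

theorem fm_nrd_pos {x : Ord} (hx : x ≠ 0) : 0 < fm (nrd x) := by
  rcases (nrd_nonneg fm x).lt_or_eq with h | h
  · exact h
  · exact absurd (nrd_eq_zero (fm_inj h.symm)) hx

/-! ### totally positive units are squares -/

theorem no_small : ∀ y < 16, 0 < y → ∀ A < 62, A * A ≠ 17 * y * y + 4 := by decide

theorem unit_sq_aux (n : ℕ) : ∀ x y : ℤ, y = n → x ^ 2 + x * y - 4 * y ^ 2 = 1 → 0 < 2 * x + y →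
    ∃ z : OK, (⟨x, y⟩ : OK) = z ^ 2 := by
  induction n using Nat.strong_induction_on with
  | _ n ih =>
    intro x y hy h hA
    have hA2 : (2 * x + y) * (2 * x + y) = 17 * y * y + 4 := by linear_combination 4 * h
    rcases Nat.eq_zero_or_pos n with h0 | h0
    · subst h0
      have hy0 : y = 0 := by simpa using hy
      subst hy0
      have hx : x = 1 := by nlinarith
      subst hx
      exact ⟨1, by decide⟩
    · have hypos : 0 < y := by rw [hy]; exact_mod_cast h0
      by_cases h16 : n < 16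
      · exfalso
        obtain ⟨A, hAA⟩ := Int.eq_ofNat_of_zero_le hA.le
        rw [hAA, hy] at hA2
        have hA3 : A * A = 17 * n * n + 4 := by exact_mod_cast hA2
        have hA4 : A < 62 := by
          by_contra hcon
          push Not at hcon
          have : n ≤ 15 := by omega
          nlinarith
        exact no_small n h16 h0 A hA4 hA3
      · have h16' : (16 : ℤ) ≤ y := by rw [hy]; exact_mod_cast (not_lt.1 h16)
        have b1 : 0 ≤ 25 * y - 16 * x := by nlinarith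
        have b2 : 25 * y - 16 * x < y := by nlinarith
        obtain ⟨m, hm⟩ := Int.eq_ofNat_of_zero_le b1
        have hmn : m < n := by
          have : (m : ℤ) < n := by rw [← hm, ← hy]; exact b2
          exact_mod_cast this
        have h' : (41 * x - 64 * y) ^ 2 + (41 * x - 64 * y) * (25 * y - 16 * x)
            - 4 * (25 * y - 16 * x) ^ 2 = 1 := by linear_combination h
        have hA' : 0 < 2 * (41 * x - 64 * y) + (25 * y - 16 * x) := by nlinarith
        obtain ⟨z, hz⟩ := ih m hmn _ _ hm h' hA'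
        refine ⟨z * ⟨3, 2⟩, ?_⟩
        rw [mul_pow, ← hz]
        ext
        · simp [pow_two]; ring
        · simp [pow_two]; ring

theorem unit_sq (u : OKˣ) (hp : 0 < fp u) (hm : 0 < fm u) : ∃ v : OKˣ, u = v ^ 2 := by
  have hN : N u = 1 := by
    rcases N_unit u with h | h
    · exact h
    · exfalso
      have : (N u : ℝ) = fp u * fm u := N_eq u
      rw [h] at this
      push_cast at this
      nlinarith [mul_pos hp hm]
  have hA : (0 : ℤ) < 2 * (u : OK).re + (u : OK).im := by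
    have h1 : (0 : ℝ) < fp u + fm u := add_pos hp hm
    have h2 : fp u + fm u = ((2 * (u : OK).re + (u : OK).im : ℤ) : ℝ) := by
      simp only [fp, fm, emb_apply, thp, thm]; push_cast; ring
    rw [h2] at h1
    exact_mod_cast h1
  have hsq : ∃ z : OK, (u : OK) = z ^ 2 := by
    rcases le_total 0 (u : OK).im with h | h
    · obtain ⟨n, hn⟩ := Int.eq_ofNat_of_zero_le h
      obtain ⟨z, hz⟩ := unit_sq_aux n (u : OK).re (u : OK).im hn hN hA
      exact ⟨z, hz⟩
    · have h' : 0 ≤ -(u : OK).im := by linarith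
      obtain ⟨n, hn⟩ := Int.eq_ofNat_of_zero_le h'
      have hN' : (u : OK).re ^ 2 + (u : OK).re * (u : OK).im - 4 * (u : OK).im ^ 2 = 1 := hN
      obtain ⟨z, hz⟩ := unit_sq_aux n ((u : OK).re + (u : OK).im) (-(u : OK).im) hn
        (by linear_combination hN') (by linarith)
      refine ⟨⟨z.re + z.im, -z.im⟩, ?_⟩
      have h1 := congrArg QuadraticAlgebra.re hz
      have h2 := congrArg QuadraticAlgebra.im hz
      simp [pow_two] at h1 h2
      ext
      · simp [pow_two]; linarith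
      · simp [pow_two]; linarith
  obtain ⟨z, hz⟩ := hsq
  have hzu : IsUnit z := by
    have : IsUnit (z ^ 2) := hz ▸ u.isUnit
    exact (isUnit_pow_iff two_ne_zero).1 this
  obtain ⟨v, hv⟩ := hzu
  refine ⟨v, ?_⟩
  ext1
  rw [hz, Units.val_pow_eq_pow_val, hv]

/-! ### elements of unit norm congruent to 1 -/

theorem amgm_aux {a1 b1 a2 b2 P1 P2 : ℝ} (ha1 : 0 ≤ a1) (hb1 : 0 ≤ b1)
    (h1 : a1 + b1 = P1) (h2 : a2 + b2 = P2) (hP : P1 * P2 = 4) (hP2 : 0 < P2)
    (hn1 : 1 ≤ a1 * a2) (hn2 : 1 ≤ b1 * b2) : a1 = b1 := by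
  have e1 : 4 * (a1 * b1) = P1 ^ 2 - (a1 - b1) ^ 2 := by rw [← h1]; ring
  have e2 : 4 * (a2 * b2) = P2 ^ 2 - (a2 - b2) ^ 2 := by rw [← h2]; ring
  have e3 : 1 ≤ (a1 * a2) * (b1 * b2) := by nlinarith
  have e4 : 16 ≤ (4 * (a1 * b1)) * (4 * (a2 * b2)) := by nlinarith
  have e5 : 4 * (a2 * b2) ≤ P2 ^ 2 := by rw [e2]; nlinarith [sq_nonneg (a2 - b2)]
  have e6 : (4 * (a1 * b1)) * (4 * (a2 * b2)) ≤ (4 * (a1 * b1)) * P2 ^ 2 :=
    mul_le_mul_of_nonneg_left e5 (by positivity)
  have e7 : (4 * (a1 * b1)) * P2 ^ 2 = 16 - (a1 - b1) ^ 2 * P2 ^ 2 := by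
    rw [e1]
    have : P1 ^ 2 * P2 ^ 2 = 16 := by rw [← mul_pow, hP]; norm_num
    linear_combination this
  have e8 : (a1 - b1) ^ 2 * P2 ^ 2 ≤ 0 := by linarith
  have e9 : (a1 - b1) ^ 2 * P2 ^ 2 = 0 := le_antisymm e8 (by positivity)
  have e10 : (a1 - b1) ^ 2 = 0 := by
    rcases mul_eq_zero.1 e9 with h | h
    · exact h
    · exact absurd h (by positivity)
  have := pow_eq_zero_iff (two_ne_zero) |>.1 e10
  linarith

theorem one_le_N {m : OK} (hm : m ≠ 0) (h1 : 0 ≤ fp m) (h2 : 0 ≤ fm m) : 1 ≤ fp m * fm m := by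
  have h3 : (N m : ℝ) = fp m * fm m := N_eq m
  have h4 : 0 ≤ (N m : ℝ) := by rw [h3]; positivity
  have h5 : 0 ≤ N m := by exact_mod_cast h4
  have h6 : N m ≠ 0 := fun h => hm (N_eq_zero h)
  have h7 : 1 ≤ N m := by omega
  rw [← h3]
  exact_mod_cast h7

theorem norm_one_aux {x y : Ord} (h1 : nrd x = 1) (hy : x = 1 + sc pi0 * y) : x = 1 ∨ x = -1 := by
  set m1 : OK := nrd y with hm1
  set m2 : OK := nrd (sc pi1 + y) with hm2
  have hpp : sc pi0 * sc pi1 = 2 := by decide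
  have e1 : nrd (x - 1) = pi0 ^ 2 * m1 := by
    have : x - 1 = sc pi0 * y := by rw [hy]; abel
    rw [this, nrd_mul]
    simp only [sc, nrd_C]
    rfl
  have e2 : nrd (x + 1) = pi0 ^ 2 * m2 := by
    have : x + 1 = sc pi0 * (sc pi1 + y) := by
      rw [hy, mul_add, hpp, ← one_add_one_eq_two]; abel
    rw [this, nrd_mul]
    simp only [sc, nrd_C]
    rfl
  have e3 : nrd (x - 1) + nrd (x + 1) = 2 * nrd x + 2 := by
    simp [nrd]; ring
  have e4 : m1 + m2 = pi1 ^ 2 := by
    apply mul_left_cancel₀ (pow_ne_zero 2 pi0_ne)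
    rw [mul_add, ← e1, ← e2, e3, h1, ← mul_pow, pi_mul]
    norm_num
  by_cases hz1 : m1 = 0
  · left
    have : y = 0 := nrd_eq_zero hz1
    rw [hy, this, mul_zero, add_zero]
  by_cases hz2 : m2 = 0
  · right
    have : sc pi1 + y = 0 := nrd_eq_zero hz2
    have hy' : y = - sc pi1 := by rw [eq_neg_iff_add_eq_zero, add_comm]; exact this
    rw [hy, hy', mul_neg, hpp]
    norm_num
  exfalso
  have p1 : 0 ≤ fp m1 := nrd_nonneg fp _
  have p2 : 0 ≤ fm m1 := nrd_nonneg fm _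
  have p3 : 0 ≤ fp m2 := nrd_nonneg fp _
  have p4 : 0 ≤ fm m2 := nrd_nonneg fm _
  have q1 := one_le_N hz1 p1 p2
  have q2 := one_le_N hz2 p3 p4
  have s1 : fp m1 + fp m2 = fp pi1 ^ 2 := by rw [← map_add, e4, map_pow]
  have s2 : fm m1 + fm m2 = fm pi1 ^ 2 := by rw [← map_add, e4, map_pow]
  have s3 : fp pi1 * fm pi1 = 2 := by
    rw [← N_eq]
    have : N pi1 = 2 := by decide
    rw [this]; norm_num
  have s4 : fp pi1 ^ 2 * fm pi1 ^ 2 = 4 := by rw [← mul_pow, s3]; norm_num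
  have n1 : fp pi1 ≠ 0 := fun h => by rw [h, zero_mul] at s3; norm_num at s3
  have n2 : fm pi1 ≠ 0 := fun h => by rw [h, mul_zero] at s3; norm_num at s3
  have key := amgm_aux p1 p3 s1 s2 s4 (by positivity) q1 q2
  have k2 : m1 = m2 := by
    have : fp (m1 - m2) = 0 := by rw [map_sub, key, sub_self]
    exact sub_eq_zero.1 (fp_inj this)
  rw [← k2, ← two_mul] at e4
  have k3 := congrArg r0 e4
  rw [map_mul, map_pow] at k3
  have k4 : r0 2 = 0 := by decide
  have k5 : r0 pi1 = 1 := by decide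
  rw [k4, k5, zero_mul] at k3
  exact absurd k3 (by decide)

theorem scalar_of_unit {x : Ord} {u : OKˣ} (h : nrd x = u) (h0 : red0 x = 1) :
    ∃ v : OKˣ, x = sc v := by
  have hx : x ≠ 0 := by
    rintro rfl
    have : (0 : OK) = u := by rw [← h]; simp [nrd]
    exact u.ne_zero this.symm
  obtain ⟨v, hv⟩ := unit_sq u (h ▸ fp_nrd_pos hx) (h ▸ fm_nrd_pos hx)
  set x' : Ord := sc (v⁻¹ : OKˣ) * x with hx'
  have h1 : nrd x' = 1 := by
    rw [hx', nrd_mul, h, hv]
    simp only [sc, nrd_C, Units.val_pow_eq_pow_val]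
    rw [← mul_pow, Units.inv_mul, one_pow]
  have h2 : red0 x' = 1 := by
    have e : red0 (sc (v⁻¹ : OKˣ)) = Om.C 0 (r0 (v⁻¹ : OKˣ)) := by
      unfold red0 sc Om.map Om.C
      simp
    rw [hx', map_mul, h0, e, r0_unit, mul_one]
    rfl
  obtain ⟨y, hy⟩ := exists_of_red0 h2
  have hxx : x = sc v * x' := by
    rw [hx', ← mul_assoc]
    have : sc (v : OK) * sc (v⁻¹ : OKˣ) = 1 := by
      unfold sc
      rw [← C_mul, Units.mul_inv, C_one]
    rw [this, one_mul]
  rcases norm_one_aux h1 hy with h3 | h3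
  · exact ⟨v, by rw [hxx, h3, mul_one]⟩
  · refine ⟨-v, ?_⟩
    rw [hxx, h3, mul_neg, mul_one]
    unfold sc
    rw [← C_neg]
    simp

end Pool.Agent.H3.Bell
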